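import Mathlib
import Pool.Agent.R439.QEq

set_option autoImplicit false

namespace Pool.Agent.Results.MP_74870a_nt.RatioCongruence

open Finset Polynomial Pool.Agent.R439

/-- The rational function `R_t(q)` of the problem. -/
noncomputable def R (n t : ℕ) : K :=
  (poch q (q ^ 2) ((n ^ t - 1) / 4) * poch (q ^ (2 * n)) (q ^ (2 * n)) ((n ^ (t - 1) - 1) / 4)) /
    (poch (q ^ 2) (q ^ 2) ((n ^ t - 1) / 4) * poch (q ^ n) (q ^ (2 * n)) ((n ^ (t - 1) - 1) / 4))

/-- sign exponent -/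
def sg (a : ℤ) : ℤ := if Even a then -1 else 1

theorem poch_ratio (B : K) (m : ℕ) :
    poch B (B ^ 2) m / poch (B ^ 2) (B ^ 2) m =
      ∏ a ∈ range (2 * m), (1 - B ^ (a + 1)) ^ (sg ((a + 1 : ℕ) : ℤ)) := by
  induction m with
  | zero => simp [poch]
  | succ m ih =>
    rw [show 2 * (m + 1) = 2 * m + 1 + 1 by ring, prod_range_succ, prod_range_succ, ← ih,
      poch_succ, poch_succ]
    have e1 : sg ((2 * m + 1 : ℕ) : ℤ) = 1 := by
      rw [sg, if_neg]; rw [Int.not_even_iff_odd]; exact ⟨m, by push_cast; ring⟩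
    have e2 : sg ((2 * m + 1 + 1 : ℕ) : ℤ) = -1 := by
      rw [sg, if_pos]; exact ⟨m + 1, by push_cast; ring⟩
    rw [e1, e2, zpow_one, zpow_neg_one, mul_div_mul_comm]
    have e3 : B * (B ^ 2) ^ m = B ^ (2 * m + 1) := by rw [← pow_mul, ← pow_succ']
    have e4 : B ^ 2 * (B ^ 2) ^ m = B ^ (2 * m + 1 + 1) := by
      rw [← pow_mul, ← pow_add]; congr 1; ring
    rw [e3, e4]
    ring

/-- separation of the multiples of `n` -/
theorem prod_sep {A : Type*} [CommMonoid A] (n : ℕ) (F : ℕ → A) (N : ℕ) :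
    ∏ a ∈ range N, F (a + 1) = (∏ a ∈ range N, if n ∣ a + 1 then 1 else F (a + 1)) *
      ∏ b ∈ range (N / n), F (n * (b + 1)) := by
  induction N with
  | zero => simp
  | succ N ih =>
    rw [prod_range_succ, prod_range_succ, ih, Nat.succ_div]
    by_cases h : n ∣ N + 1
    · rw [if_pos h, if_pos h, prod_range_succ]
      have : n * (N / n + 1) = N + 1 := by
        have h1 : (N + 1) / n = N / n + 1 := by rw [Nat.succ_div, if_pos h]
        rw [← h1, Nat.mul_div_cancel' h]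
      rw [this, mul_one, mul_assoc]
    · rw [if_neg h, if_neg h, add_zero]
      rw [mul_right_comm]

section
variable {n : ℕ}

theorem sg_mul (hn : n % 4 = 1) (b : ℤ) : sg (n * b) = sg b := by
  rw [sg, sg]
  have : Even ((n : ℤ) * b) ↔ Even b := by
    rw [Int.even_mul]
    constructor
    · rintro (h | h)
      · exfalso
        have : Odd (n : ℤ) := by
          rw [Int.odd_iff]; omega
        exact (Int.not_even_iff_odd.2 this) h
      · exact h
    · exact Or.inr
  simp only [this]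

/-- the factors -/
noncomputable def u (n : ℕ) (a : ℤ) : K := if (n : ℤ) ∣ a then 1 else (1 - q ^ a) ^ sg a

/-- the unit product -/
noncomputable def W (n N : ℕ) : K := ∏ a ∈ range N, u n ((a + 1 : ℕ) : ℤ)

theorem two_m (hn : n % 4 = 1) (t : ℕ) : ∃ m, n ^ t = 4 * m + 1 := by
  have h : n ^ t % 4 = 1 := by rw [Nat.pow_mod, hn, one_pow]; rfl
  exact ⟨n ^ t / 4, by omega⟩

theorem R_eq (hn : n % 4 = 1) (t : ℕ) : R n (t + 1) = W n ((n ^ (t + 1) - 1) / 2) := by
  obtain ⟨m', hm'⟩ := two_m hn t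
  obtain ⟨m, hm⟩ := two_m hn (t + 1)
  have hn0 : 0 < n := by omega
  have h1 : (n ^ (t + 1) - 1) / 4 = m := by omega
  have h2 : (n ^ (t + 1) - 1) / 2 = 2 * m := by omega
  have h3 : (n ^ (t + 1 - 1) - 1) / 4 = m' := by rw [Nat.add_sub_cancel]; omega
  have h4 : 2 * m / n = 2 * m' := by
    have e : 4 * m + 1 = n * (4 * m' + 1) := by rw [← hm, ← hm', pow_succ']
    have e2 : 4 * m + 1 = 4 * (n * m') + n := by rw [e]; ring
    have e3 : 2 * m = n * (2 * m') + (n - 1) / 2 := by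
      have : n * (2 * m') = 2 * (n * m') := by ring
      omega
    rw [e3, Nat.mul_add_div hn0, Nat.div_eq_of_lt (by omega), add_zero]
  rw [R, h1, h2, h3, pow_mul' q 2 n]
  have key := prod_sep n (fun a => (1 - q ^ a : K) ^ sg (a : ℤ)) (2 * m)
  rw [h4] at key
  have k1 : ∏ a ∈ range (2 * m), (1 - q ^ (a + 1) : K) ^ sg ((a + 1 : ℕ) : ℤ) =
      poch q (q ^ 2) m / poch (q ^ 2) (q ^ 2) m := (poch_ratio q m).symm
  have k2 : ∏ b ∈ range (2 * m'), (1 - q ^ (n * (b + 1)) : K) ^ sg ((n * (b + 1) : ℕ) : ℤ) =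
      poch (q ^ n) ((q ^ n) ^ 2) m' / poch ((q ^ n) ^ 2) ((q ^ n) ^ 2) m' := by
    rw [poch_ratio]
    refine prod_congr rfl fun b _ => ?_
    rw [← pow_mul, Nat.cast_mul, sg_mul hn]
  have k3 : ∏ a ∈ range (2 * m), (if n ∣ a + 1 then 1 else (1 - q ^ (a + 1) : K) ^
      sg ((a + 1 : ℕ) : ℤ)) = W n (2 * m) := by
    rw [W]
    refine prod_congr rfl fun a _ => ?_
    rw [u, zpow_natCast]
    simp only [Int.natCast_dvd_natCast]
  rw [k1, k2, k3] at key
  have hB : ∀ i : ℕ, 0 < i → ((q : K) ^ n) ^ i ≠ 1 := fun i hi => by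
    rw [← pow_mul]; exact q_pow_ne_one (by positivity)
  have hB2 : ∀ i : ℕ, 0 < i → (((q : K) ^ n) ^ 2) ^ i ≠ 1 := fun i hi => by
    rw [← pow_mul, ← pow_mul]; exact q_pow_ne_one (by positivity)
  have p1 : poch (q ^ n : K) ((q ^ n) ^ 2) m' ≠ 0 := poch_ne fun i _ => by
    rw [← pow_mul, ← pow_succ']; exact hB _ (by omega)
  have p2 : poch ((q ^ n : K) ^ 2) ((q ^ n) ^ 2) m' ≠ 0 := poch_self_ne hB2 m'
  have p3 : poch (q ^ 2 : K) (q ^ 2) m ≠ 0 := poch_self_ne (fun i hi => by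
    rw [← pow_mul]; exact q_pow_ne_one (by positivity)) m
  rw [mul_div_mul_comm, key]
  field_simp

end

section
variable {n s t' : ℕ}

/-- symmetric pair of factors, shifted -/
noncomputable def v (n N T : ℕ) (c x : ℤ) : K :=
  if (n : ℤ) ∣ c then 1 else
    ((1 - q ^ (c + N * (T * x))) * (1 - q ^ (-c + N * (T * x)))) ^ sg c

/-- the symmetric product -/
noncomputable def rho (n N T h : ℕ) (x : ℤ) : K := ∏ c ∈ range h, v n N T ((c + 1 : ℕ) : ℤ) x

theorem const_prod (hn : n % 4 = 1) {y : K} (hy : y ≠ 0) {h : ℕ} (h1 : Even h)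
    (h2 : Even (h / n)) :
    ∏ c ∈ range h, (if (n : ℤ) ∣ ((c + 1 : ℕ) : ℤ) then (1 : K) else y ^ sg ((c + 1 : ℕ) : ℤ)) =
      1 := by
  have aux : ∀ h : ℕ, Even h → ∏ c ∈ range h, y ^ sg ((c + 1 : ℕ) : ℤ) = 1 := by
    rintro h ⟨m, rfl⟩
    induction m with
    | zero => simp
    | succ m ih =>
      rw [show m + 1 + (m + 1) = m + m + 1 + 1 by ring, prod_range_succ, prod_range_succ, ih]
      have e1 : sg ((m + m + 1 : ℕ) : ℤ) = 1 := by
        rw [sg, if_neg]; rw [Int.not_even_iff_odd]; exact ⟨m, by push_cast; ring⟩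
      have e2 : sg ((m + m + 1 + 1 : ℕ) : ℤ) = -1 := by
        rw [sg, if_pos]; exact ⟨m + 1, by push_cast; ring⟩
      rw [e1, e2, zpow_one, zpow_neg_one, one_mul, mul_inv_cancel₀ hy]
  have key := prod_sep n (fun a => y ^ sg (a : ℤ)) h
  rw [aux h h1] at key
  have e : ∏ b ∈ range (h / n), y ^ sg ((n * (b + 1) : ℕ) : ℤ) = 1 := by
    rw [← aux _ h2]
    refine prod_congr rfl fun b _ => ?_
    rw [Nat.cast_mul, sg_mul hn]
  rw [e, mul_one] at key
  refine Eq.trans ?_ key.symm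
  refine prod_congr rfl fun a _ => ?_
  simp only [Int.natCast_dvd_natCast]

theorem v_neg (N T : ℕ) (c x : ℤ) : v n N T c (-x) =
    v n N T c x * (if (n : ℤ) ∣ c then 1 else (q ^ (-2 * (N * (T * x)))) ^ sg c) := by
  rw [v, v]
  by_cases h : (n : ℤ) ∣ c
  · rw [if_pos h, if_pos h, if_pos h, mul_one]
  · rw [if_neg h, if_neg h, if_neg h, ← mul_zpow]
    congr 1
    have e1 : (N : ℤ) * (T * -x) = -(N * (T * x)) := by ring
    rw [e1]
    generalize (N : ℤ) * (T * x) = X
    have h1 : (q : K) ^ X ≠ 0 := zpow_ne_zero _ q_ne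
    have h2 : (q : K) ^ c ≠ 0 := zpow_ne_zero _ q_ne
    rw [zpow_add₀ q_ne, zpow_add₀ q_ne, zpow_add₀ q_ne, zpow_add₀ q_ne, zpow_neg, zpow_neg,
      show -2 * X = -X + -X by ring, zpow_add₀ q_ne, zpow_neg]
    field_simp
    ring

theorem rho_neg (hn : n % 4 = 1) (N T : ℕ) {h : ℕ} (h1 : Even h) (h2 : Even (h / n)) (x : ℤ) :
    rho n N T h (-x) = rho n N T h x := by
  rw [rho, rho]
  have : ∀ c ∈ range h, v n N T ((c + 1 : ℕ) : ℤ) (-x) = v n N T ((c + 1 : ℕ) : ℤ) x *
    (if (n : ℤ) ∣ ((c + 1 : ℕ) : ℤ) then 1 else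
      (q ^ (-2 * (N * (T * x)))) ^ sg ((c + 1 : ℕ) : ℤ)) := fun c _ => v_neg N T _ x
  rw [prod_congr rfl this, prod_mul_distrib, const_prod hn (zpow_ne_zero _ q_ne) h1 h2, mul_one]

variable {N T : ℕ} [NeZero N]

theorem factor_U (hN : n ∣ N) {c : ℤ} (hc : ¬ (n : ℤ) ∣ c) (x : ℤ) :
    U N (1 - q ^ (c + N * x)) := by
  apply U_one_sub
  intro h
  apply hc
  have h1 : (N : ℤ) ∣ c := by
    have := dvd_sub h (dvd_mul_right (N : ℤ) x)
    simpa using this
  exact (Int.natCast_dvd_natCast.2 hN).trans h1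

theorem factor_Aff (T : ℕ) (c : ℤ) : Aff N (fun x : ℤ => 1 - q ^ (c + N * (T * x))) := by
  have := Aff.qpow (n := N) c (AddMonoidHom.mulLeft (T : ℤ))
  exact (Aff.const (one_mem _)).sub this

theorem v_U (hN : n ∣ N) (c x : ℤ) : U N (v n N T c x) := by
  rw [v]
  by_cases h : (n : ℤ) ∣ c
  · rw [if_pos h]; exact U.one
  · rw [if_neg h]
    have h' : ¬ (n : ℤ) ∣ -c := by rwa [Int.dvd_neg]
    have := (factor_U hN h (T * x)).mul (factor_U hN h' (T * x))
    rw [sg]
    by_cases hc : Even c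
    · rw [if_pos hc, zpow_neg_one]; exact this.inv
    · rw [if_neg hc, zpow_one]; exact this

theorem v_Aff (hN : n ∣ N) (c : ℤ) : Aff N (v n N T c) := by
  unfold v
  by_cases h : (n : ℤ) ∣ c
  · simp only [if_pos h]; exact Aff.const (one_mem _)
  · simp only [if_neg h]
    have h' : ¬ (n : ℤ) ∣ -c := by rwa [Int.dvd_neg]
    have ha := (factor_Aff (N := N) T c).mul (factor_Aff (N := N) T (-c))
    rw [sg]
    by_cases hc : Even c
    · simp only [if_pos hc, zpow_neg_one]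
      exact ha.inv fun x => (factor_U hN h (T * x)).mul (factor_U hN h' (T * x))
    · simp only [if_neg hc, zpow_one]; exact ha

theorem rho_U (hN : n ∣ N) (h : ℕ) (x : ℤ) : U N (rho n N T h x) := U.prod fun c _ => v_U hN _ x

theorem rho_const (hN : n ∣ N) (hn : n % 4 = 1) {h : ℕ} (h1 : Even h) (h2 : Even (h / n))
    (x : ℤ) : EQ N 2 (rho n N T h x) (rho n N T h 0) := by
  refine ⟨(rho_U hN h x).2.1, (rho_U hN h 0).2.1, ?_⟩
  have hA : Aff N (rho n N T h) := by
    unfold rho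
    exact Aff.prod fun c _ => v_Aff hN _
  obtain ⟨L, hL, -, H⟩ := hA.lin
  have a1 := H x
  have a2 := H (-x)
  rw [rho_neg hn N T h1 h2, map_neg] at a2
  have h2' : (2 : K) ≠ 0 := two_ne_zero
  apply I.cancel (x := 2) h2' (by simpa using natinv_mem (n := N) 2)
  have : 2 * (rho n N T h x - rho n N T h 0) =
      (rho n N T h x - (rho n N T h 0 + w N * L x)) +
      (rho n N T h x - (rho n N T h 0 + w N * -L x)) := by ring
  rw [this]
  exact a1.add a2

end

section
variable {n N T h : ℕ}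

/-- product over a full block around `j n^t` -/
theorem block_prod (hnN : n ∣ N) (hT : N * T = 2 * h + 1) (j : ℤ) :
    ∏ i ∈ range (N * T), u n (j * (N * T) - h + i) =
      (rho n N T h j) ^ (if Even j then (1 : ℤ) else -1) := by
  conv_lhs => rw [hT]
  rw [show 2 * h + 1 = h + 1 + h by ring, prod_range_add, prod_range_succ]
  have hd : (n : ℤ) ∣ j * (N * T) := by
    refine Dvd.dvd.mul_left (Dvd.dvd.mul_right ?_ _) _
    exact_mod_cast hnN
  have e0 : u n (j * (N * T) - h + h) = 1 := by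
    rw [u, if_pos]; rwa [sub_add_cancel]
  have e1 : ∏ i ∈ range h, u n (j * (N * T) - h + i) =
      ∏ i ∈ range h, u n (j * (N * T) - (i + 1 : ℕ)) := by
    rw [← prod_range_reflect]
    refine prod_congr rfl fun i hi => ?_
    have hi' := mem_range.1 hi
    congr 1
    have : ((h - 1 - i : ℕ) : ℤ) = h - 1 - i := by omega
    rw [this]; push_cast; ring
  have e2 : ∏ i ∈ range h, u n (j * (N * T) - h + ((h + 1 + i : ℕ) : ℤ)) =
      ∏ i ∈ range h, u n (j * (N * T) + (i + 1 : ℕ)) := by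
    refine prod_congr rfl fun i _ => ?_
    congr 1; push_cast; ring
  rw [e0, e1, e2, mul_one, ← prod_mul_distrib, rho, ← prod_zpow]
  refine prod_congr rfl fun i _ => ?_
  generalize ((i + 1 : ℕ) : ℤ) = c
  have hTodd : Odd ((N : ℤ) * T) := ⟨h, by exact_mod_cast hT⟩
  rw [u, u, v]
  by_cases hc : (n : ℤ) ∣ c
  · rw [if_pos hc, if_pos (dvd_sub hd hc), if_pos (dvd_add hd hc), one_zpow, mul_one]
  · rw [if_neg hc, if_neg (fun hh => hc ((dvd_sub_right hd).1 hh)),
      if_neg (fun hh => hc ((dvd_add_right hd).1 hh))]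
    have q1 : q ^ (j * (N * T) - c) = q ^ (-c + N * (T * j)) := by congr 1; ring
    have q2 : q ^ (j * (N * T) + c) = q ^ (c + N * (T * j)) := by congr 1; ring
    rw [q1, q2]
    have s0 : sg (j * (N * T) - c) = sg (j * (N * T) + c) := by
      rw [sg, sg]
      have : Even (j * (N * T) - c) ↔ Even (j * (N * T) + c) := by
        rw [Int.even_sub, Int.even_add]
      simp only [this]
    have s1 : sg (j * (N * T) + c) = sg c * (if Even j then (1 : ℤ) else -1) := by
      have hj : Even (j * (N * T)) ↔ Even j := by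
        rw [Int.even_mul]
        constructor
        · rintro (h | h)
          · exact h
          · exact absurd h (Int.not_even_iff_odd.2 hTodd)
        · exact Or.inl
      simp only [sg, Int.even_add, hj]
      by_cases h1 : Even j <;> by_cases h2 : Even c <;> simp [h1, h2]
    rw [s0, s1, ← mul_zpow, zpow_mul, mul_comm (1 - q ^ (-c + (N : ℤ) * (T * j)))]

theorem W_step (hnN : n ∣ N) (hT : N * T = 2 * h + 1) (J : ℕ) :
    W n (h + N * T * (J + 1)) = W n (h + N * T * J) *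
      (rho n N T h ((J + 1 : ℕ) : ℤ)) ^ (if Even ((J + 1 : ℕ) : ℤ) then (1 : ℤ) else -1) := by
  rw [← block_prod hnN hT, Nat.mul_succ, ← add_assoc, W, W, prod_range_add]
  congr 1
  refine prod_congr rfl fun i _ => ?_
  congr 1
  have : (N : ℤ) * T = 2 * h + 1 := by exact_mod_cast hT
  push_cast
  linear_combination (-1) * this

theorem W_U [NeZero N] (hnN : n ∣ N) (X : ℕ) : U N (W n X) := by
  refine U.prod fun a _ => ?_
  rw [u]
  split_ifs with h1
  · exact U.one
  · have := factor_U (N := N) hnN h1 0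
    rw [mul_zero, add_zero] at this
    rw [sg]
    split_ifs
    · rw [zpow_neg_one]; exact this.inv
    · rw [zpow_one]; exact this

theorem W_main [NeZero N] (hn : n % 4 = 1) (hnN : n ∣ N) (hT : N * T = 2 * h + 1)
    (h1 : Even h) (h2 : Even (h / n)) (k : ℕ) :
    EQ N 2 (W n (h + N * T * (2 * k))) (W n h) := by
  induction k with
  | zero => rw [mul_zero, mul_zero, add_zero]; exact EQ.refl (W_U hnN h).2.1
  | succ k ih =>
    have e1 := W_step hnN hT (2 * k)
    have e2 := W_step hnN hT (2 * k + 1)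
    rw [if_neg (by rw [Int.not_even_iff_odd]; exact ⟨k, by push_cast; ring⟩)] at e1
    rw [if_pos (by exact ⟨k + 1, by push_cast; ring⟩)] at e2
    rw [show 2 * (k + 1) = 2 * k + 1 + 1 by ring, e2, e1, zpow_neg_one, zpow_one]
    have c1 := rho_const (T := T) hnN hn h1 h2 ((2 * k + 1 : ℕ) : ℤ)
    have c2 := rho_const (T := T) hnN hn h1 h2 ((2 * k + 1 + 1 : ℕ) : ℤ)
    have c3 := (ih.mul (c1.inv two_pos (rho_U hnN h _))).mul c2
    rw [mul_assoc (W n h), inv_mul_cancel₀ (rho_U hnN h _).1, mul_one] at c3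
    exact c3

end

theorem step {n s t : ℕ} (hn : n % 4 = 1) (hs : 0 < s) (hst : s ≤ t) [NeZero (n ^ s)] :
    EQ (n ^ s) 2 (R n (t + 1)) (R n t) := by
  obtain ⟨m, hm⟩ := two_m hn t
  obtain ⟨m', hm'⟩ := two_m hn (t - 1)
  have hn0 : 0 < n := by omega
  have ht : t = t - 1 + 1 := by omega
  have hT : n ^ s * n ^ (t - s) = 2 * (2 * m) + 1 := by
    rw [← pow_add, Nat.add_sub_cancel' hst, hm]; ring
  have h2 : 2 * m / n = 2 * m' := by
    have e : 4 * m + 1 = n * (4 * m' + 1) := by rw [← hm, ← hm', ← pow_succ', ← ht]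
    have e2 : 4 * m + 1 = 4 * (n * m') + n := by rw [e]; ring
    have e3 : 2 * m = n * (2 * m') + (n - 1) / 2 := by
      have : n * (2 * m') = 2 * (n * m') := by ring
      omega
    rw [e3, Nat.mul_add_div hn0, Nat.div_eq_of_lt (by omega), add_zero]
  have hnN : n ∣ n ^ s := dvd_pow_self n hs.ne'
  have key := W_main hn hnN hT (even_two_mul m) (by rw [h2]; exact even_two_mul m') (n / 4)
  have r1 : R n t = W n (2 * m) := by
    rw [ht, R_eq hn, ← ht]; congr 1; omega
  have r2 : R n (t + 1) = W n (2 * m + n ^ s * n ^ (t - s) * (2 * (n / 4))) := by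
    rw [R_eq hn]; congr 1
    rw [hT, pow_succ, hm]
    obtain ⟨k, hk⟩ : ∃ k, n = 4 * k + 1 := ⟨n / 4, by omega⟩
    have e : n / 4 = k := by omega
    rw [e, hk]
    have : (4 * m + 1) * (4 * k + 1) - 1 = 2 * (2 * m + (2 * (2 * m) + 1) * (2 * k)) := by
      have : (4 * m + 1) * (4 * k + 1) = 2 * (2 * m + (2 * (2 * m) + 1) * (2 * k)) + 1 := by ring
      omega
    rw [this, Nat.mul_div_cancel_left _ two_pos]
  rw [r1, r2]
  exact key

/-- **Answer to Q1**: the congruence holds for all `n ≡ 1 (mod 4)`, `n > 1`, and all `r > s ≥ 1`. -/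
theorem result : ∀ n r s : ℕ, n % 4 = 1 → 1 < n → 0 < s → s < r →
    Cong (cyclotomic (n ^ s) ℚ ^ 2) (R n r) (R n s) := by
  intro n r s hn hn1 hs hsr
  have : NeZero (n ^ s) := ⟨pow_ne_zero _ (by omega)⟩
  have key : ∀ k : ℕ, EQ (n ^ s) 2 (R n (s + k)) (R n s) := by
    intro k
    induction k with
    | zero =>
      obtain ⟨s', rfl⟩ : ∃ s', s = s' + 1 := ⟨s - 1, by omega⟩
      rw [add_zero]
      refine EQ.refl ?_
      rw [R_eq hn]
      exact (W_U (dvd_pow_self n (Nat.succ_ne_zero s')) _).2.1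
    | succ k ih => exact (step hn hs (Nat.le_add_right s k)).trans ih
  have h := key (r - s)
  rw [Nat.add_sub_cancel' hsr.le] at h
  exact num_of_I h.2.2

end Pool.Agent.Results.MP_74870a_nt.RatioCongruence
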